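import Mathlib

namespace Pool.Agent.Results.MP_739904_co.FixedSizeSide

open Finset

/-! ### Cleaning lemma

Finitely many graphs, none of which has a large clique inside `S`: after passing to a not too small
subset `T`, all degrees in `T` are small simultaneously. -/

theorem clean {V ι : Type} [DecidableEq V] [DecidableEq ι] (H : ι → V → V → Prop)
    (hsymm : ∀ i x y, H i x y → H i y x) (I : Finset ι) (D : ℕ) (hD : 1 ≤ D) (m : ℕ) :
    ∀ (k : ι → ℕ) (S : Finset V), ∑ i ∈ I, k i = m → S.Nonempty →
      (∀ i ∈ I, ¬ ∃ A : Finset V, A ⊆ S ∧ A.card = k i ∧ ∀ x ∈ A, ∀ y ∈ A, x ≠ y → H i x y) →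
      ∃ T : Finset V, T ⊆ S ∧ T.Nonempty ∧ S.card ≤ T.card * D ^ m ∧
        ∀ y ∈ T, ∀ i ∈ I, ∀ N : Finset V, N ⊆ T → (∀ z ∈ N, z ≠ y ∧ H i y z) →
          D * N.card ≤ T.card := by
  induction m with
  | zero =>
    intro k S hk hS hno
    have hk0 : ∀ i ∈ I, k i = 0 := by
      intro i hi
      exact (Finset.sum_eq_zero_iff.mp hk) i hi
    refine ⟨S, Finset.Subset.refl S, hS, by simp, ?_⟩
    intro y _ i hi
    exact absurd ⟨∅, Finset.empty_subset S, by rw [hk0 i hi]; simp, by simp⟩ (hno i hi)
  | succ m ih =>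
    intro k S hk hS hno
    by_cases hgood : ∀ y ∈ S, ∀ i ∈ I, ∀ N : Finset V, N ⊆ S → (∀ z ∈ N, z ≠ y ∧ H i y z) →
        D * N.card ≤ S.card
    · refine ⟨S, Finset.Subset.refl S, hS, ?_, hgood⟩
      exact Nat.le_mul_of_pos_right _ (Nat.pos_of_ne_zero (pow_ne_zero _ (by omega)))
    · push Not at hgood
      obtain ⟨y, hy, i, hi, N, hNS, hN, hlt⟩ := hgood
      have hNne : N.Nonempty := by
        rw [← Finset.card_pos]
        rcases Nat.eq_zero_or_pos N.card with h | h
        · rw [h] at hlt
          simp at hlt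
        · exact h
      have hki : 1 ≤ k i := by
        by_contra h0
        exact hno i hi ⟨∅, Finset.empty_subset S, by
          rw [Finset.card_empty]; omega, by simp⟩
      have hyN : y ∉ N := fun h => (hN y h).1 rfl
      obtain ⟨T, hTN, hTne, hTcard, hT⟩ := ih (Function.update k i (k i - 1)) N (by
          have h1 := Finset.sum_update_of_mem hi k (k i - 1)
          have h2 := Finset.add_sum_erase I k hi
          have h3 : ∑ x ∈ I \ {i}, k x = ∑ x ∈ I.erase i, k x := by
            rw [Finset.erase_eq]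
          rw [h1, h3]
          omega) hNne (by
          intro j hj
          rintro ⟨A, hAN, hAcard, hA⟩
          by_cases hji : j = i
          · subst hji
            rw [Function.update_self] at hAcard
            apply hno j hj
            refine ⟨insert y A, ?_, ?_, ?_⟩
            · exact Finset.insert_subset hy (hAN.trans hNS)
            · rw [Finset.card_insert_of_notMem (fun h => hyN (hAN h)), hAcard]
              omega
            · intro x hx x' hx' hne
              rw [Finset.mem_insert] at hx hx'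
              rcases hx with rfl | hx
              · rcases hx' with rfl | hx'
                · exact absurd rfl hne
                · exact (hN x' (hAN hx')).2
              · rcases hx' with rfl | hx'
                · exact hsymm _ _ _ (hN x (hAN hx)).2
                · exact hA x hx x' hx' hne
          · rw [Function.update_of_ne hji] at hAcard
            exact hno j hj ⟨A, hAN.trans hNS, hAcard, hA⟩)
      refine ⟨T, hTN.trans hNS, hTne, ?_, hT⟩
      calc S.card ≤ D * N.card := hlt.le
        _ ≤ D * (T.card * D ^ m) := Nat.mul_le_mul_left _ hTcard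
        _ = T.card * D ^ (m + 1) := by ring

/-! ### Ramsey's theorem for pairs, any number of colours -/

theorem ramsey {V κ : Type} [DecidableEq V] [DecidableEq κ] [Fintype κ] [Nonempty κ]
    (χ : V → V → κ) (hsymm : ∀ x y, χ x y = χ y x) (D : ℕ) (hD : 2 ≤ D)
    (hDκ : Fintype.card κ ≤ D) (m : ℕ) :
    ∀ (k : κ → ℕ) (X : Finset V), ∑ c, k c = m → D ^ m ≤ X.card →
      ∃ c, ∃ I : Finset V, I ⊆ X ∧ I.card = k c ∧ ∀ x ∈ I, ∀ y ∈ I, x ≠ y → χ x y = c := by
  induction m with
  | zero =>
    intro k X hk _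
    obtain ⟨c⟩ := ‹Nonempty κ›
    have hc : k c = 0 := (Finset.sum_eq_zero_iff.mp hk) c (Finset.mem_univ c)
    exact ⟨c, ∅, Finset.empty_subset X, by rw [hc]; simp, by simp⟩
  | succ m ih =>
    intro k X hk hX
    by_cases h0 : ∃ c, k c = 0
    · obtain ⟨c, hc⟩ := h0
      exact ⟨c, ∅, Finset.empty_subset X, by rw [hc]; simp, by simp⟩
    push Not at h0
    have hXpos : 0 < X.card := lt_of_lt_of_le (pow_pos (by omega) _) hX
    obtain ⟨x, hx⟩ := Finset.card_pos.mp hXpos
    -- pigeonhole on the colours of the pairs `x z`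
    have hex : ∃ c, D ^ m ≤ ((X.erase x).filter (fun z => χ x z = c)).card := by
      by_contra hcon
      push Not at hcon
      have h1 : (X.erase x).card = ∑ c, ((X.erase x).filter (fun z => χ x z = c)).card :=
        Finset.card_eq_sum_card_fiberwise (fun z _ => by simp)
      have h2 : ∑ c : κ, ((X.erase x).filter (fun z => χ x z = c)).card ≤
          ∑ _c : κ, (D ^ m - 1) := Finset.sum_le_sum (fun c _ => by have := hcon c; omega)
      rw [Finset.sum_const, Finset.card_univ, smul_eq_mul] at h2
      rw [Finset.card_erase_of_mem hx] at h1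
      have h3 : Fintype.card κ * (D ^ m - 1) ≤ D * (D ^ m - 1) := Nat.mul_le_mul_right _ hDκ
      have h4 : 1 ≤ D ^ m := Nat.one_le_pow _ _ (by omega)
      have h5 : D * (D ^ m - 1) + D = D ^ (m + 1) := by
        rw [Nat.mul_sub, Nat.mul_one, pow_succ, mul_comm (D ^ m) D]
        have : D ≤ D * D ^ m := Nat.le_mul_of_pos_right _ (by omega)
        omega
      omega
    obtain ⟨c, hc⟩ := hex
    obtain ⟨c', I, hI, hIcard, hImono⟩ := ih (Function.update k c (k c - 1))
      ((X.erase x).filter (fun z => χ x z = c)) (by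
        have h1 := Finset.sum_update_of_mem (Finset.mem_univ c) k (k c - 1)
        have h2 := Finset.add_sum_erase Finset.univ k (Finset.mem_univ c)
        have h3 : ∑ x ∈ Finset.univ \ {c}, k x = ∑ x ∈ Finset.univ.erase c, k x := by
          rw [Finset.erase_eq]
        have h4 := h0 c
        rw [h1, h3]
        omega) hc
    have hIX : I ⊆ X := hI.trans ((Finset.filter_subset _ _).trans (Finset.erase_subset _ _))
    by_cases hcc : c' = c
    · subst hcc
      rw [Function.update_self] at hIcard
      have hxI : x ∉ I := by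
        intro h
        have := hI h
        simp at this
      refine ⟨c', insert x I, Finset.insert_subset hx hIX, ?_, ?_⟩
      · rw [Finset.card_insert_of_notMem hxI, hIcard]
        have := h0 c'
        omega
      · intro y hy z hz hyz
        rw [Finset.mem_insert] at hy hz
        rcases hy with rfl | hy
        · rcases hz with rfl | hz
          · exact absurd rfl hyz
          · exact (Finset.mem_filter.mp (hI hz)).2
        · rcases hz with rfl | hz
          · rw [hsymm]
            exact (Finset.mem_filter.mp (hI hy)).2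
          · exact hImono y hy z hz hyz
    · rw [Function.update_of_ne hcc] at hIcard
      exact ⟨c', I, hIX, hIcard, hImono⟩

/-! ### The main argument -/

section Main

variable {V κ : Type} [DecidableEq V] [DecidableEq κ] [Fintype κ] [Nonempty κ]

/-- All triples inside `A ∪ B` that meet `B` have colour `c` under `f`. -/
def MeetMono (f : Finset V → κ) (A B : Finset V) (c : κ) : Prop :=
  ∀ T : Finset V, T.card = 3 → T ⊆ A ∪ B → (T ∩ B).Nonempty → f T = c

omit [DecidableEq κ] [Fintype κ] [Nonempty κ] in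
theorem meetMono_of (f : Finset V → κ) (A B : Finset V) (c : κ)
    (h0 : ∀ x ∈ B, ∀ x' ∈ B, ∀ x'' ∈ B, x ≠ x' → x ≠ x'' → x' ≠ x'' → f {x, x', x''} = c)
    (h1 : ∀ x ∈ B, ∀ x' ∈ B, x ≠ x' → ∀ y ∈ A, f {x, x', y} = c)
    (h2 : ∀ x ∈ B, ∀ y ∈ A, ∀ y' ∈ A, y ≠ y' → f {x, y, y'} = c) : MeetMono f A B c := by
  intro T hT hsub hB
  obtain ⟨b, hb⟩ := hB
  rw [Finset.mem_inter] at hb
  -- the two other elements
  have hcard : (T.erase b).card = 2 := by
    rw [Finset.card_erase_of_mem hb.1, hT]
  obtain ⟨y, z, hyz, hyzT⟩ := Finset.card_eq_two.mp hcard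
  have hTeq : T = {b, y, z} := by
    rw [← Finset.insert_erase hb.1, hyzT]
  have hyT : y ∈ T.erase b := by rw [hyzT]; simp
  have hzT : z ∈ T.erase b := by rw [hyzT]; simp
  rw [Finset.mem_erase] at hyT hzT
  have hyAB := hsub hyT.2
  have hzAB := hsub hzT.2
  rw [Finset.mem_union] at hyAB hzAB
  rw [hTeq]
  rcases hyAB with hyA | hyB
  · rcases hzAB with hzA | hzB
    · exact h2 b hb.2 y hyA z hzA hyz
    · have heq : ({b, y, z} : Finset V) = {b, z, y} := by
        rw [Finset.pair_comm]
      rw [heq]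
      exact h1 b hb.2 z hzB hzT.1.symm y hyA
  · rcases hzAB with hzA | hzB
    · exact h1 b hb.2 y hyB hyT.1.symm z hzA
    · exact h0 b hb.2 y hyB z hzB hyT.1.symm hzT.1.symm hyz

/-- The state of the process: the colour of `{x, x', y}` with `x, x' ∈ X` does not depend on
`y ∈ S`, the colour of a triple inside `X` is the induced colour of one of its pairs, and the
induced colouring of the pairs of `X` has no monochromatic set of size `s + 1`. -/
def State (f : Finset V → κ) (s : ℕ) (X S : Finset V) : Prop :=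
  Disjoint X S ∧ (∀ x ∈ X, ∀ x' ∈ X, x ≠ x' → ∀ y ∈ S, ∀ y' ∈ S, f {x, x', y} = f {x, x', y'}) ∧
    (∀ x ∈ X, ∀ x' ∈ X, ∀ x'' ∈ X, x ≠ x' → x ≠ x'' → x' ≠ x'' → ∀ y ∈ S,
      f {x, x', x''} = f {x, x', y} ∨ f {x, x', x''} = f {x, x'', y} ∨
        f {x, x', x''} = f {x', x'', y}) ∧
    ∀ c : κ, ∀ I : Finset V, I ⊆ X → I.card = s + 1 →
      ¬ (∀ x ∈ I, ∀ x' ∈ I, x ≠ x' → ∀ y ∈ S, f {x, x', y} = c)

/-- One step of the process. -/
theorem step (f : Finset V → κ) (s a K : ℕ)
    (hno : ∀ A B : Finset V, Disjoint A B → A.card = a → B.card = s → ∀ c, ¬ MeetMono f A B c)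
    (X S : Finset V) (hXK : X.card < K) (hst : State f s X S) (N : ℕ) (hN : 1 ≤ N)
    (hS : (4 * (K ^ s * Fintype.card κ)) ^ (K ^ s * Fintype.card κ * a) *
      (4 * (Fintype.card κ) ^ K * N) ≤ S.card) :
    ∃ X' S' : Finset V, X'.card = X.card + 1 ∧ State f s X' S' ∧ N ≤ S'.card := by
  classical
  obtain ⟨hdisj, hconst, htri, hclique⟩ := hst
  set q := K ^ s * Fintype.card κ with hq
  have hκ : 1 ≤ Fintype.card κ := Fintype.card_pos
  have hK : 1 ≤ K := by omega
  have hq1 : 1 ≤ q := Nat.one_le_iff_ne_zero.mpr (by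
    rw [hq]; exact Nat.mul_ne_zero (pow_ne_zero _ (by omega)) (by omega))
  have hSpos : 0 < S.card := lt_of_lt_of_le (by positivity) hS
  have hSne : S.Nonempty := Finset.card_pos.mp hSpos
  -- the family of monochromatic `s`-subsets of `X` with their colours
  let Fam : Finset (Finset V × κ) :=
    ((X.powersetCard s) ×ˢ (Finset.univ : Finset κ)).filter
      (fun p => ∀ x ∈ p.1, ∀ x' ∈ p.1, x ≠ x' → ∀ y ∈ S, f {x, x', y} = p.2)
  have hFam : Fam.card ≤ q := by
    calc Fam.card ≤ ((X.powersetCard s) ×ˢ (Finset.univ : Finset κ)).card :=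
          Finset.card_le_card (Finset.filter_subset _ _)
      _ = (X.card.choose s) * Fintype.card κ := by
          rw [Finset.card_product, Finset.card_powersetCard, Finset.card_univ]
      _ ≤ K ^ s * Fintype.card κ := by
          apply Nat.mul_le_mul_right
          calc X.card.choose s ≤ X.card ^ s := Nat.choose_le_pow _ _
            _ ≤ K ^ s := Nat.pow_le_pow_left hXK.le s
  let H : (Finset V × κ) → V → V → Prop := fun p y y' => ∀ z ∈ p.1, f {z, y, y'} = p.2
  have hHsymm : ∀ i x y, H i x y → H i y x := by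
    intro i x y h z hz
    have := h z hz
    rw [Finset.pair_comm y x]
    exact this
  obtain ⟨T, hTS, hTne, hTcard, hT⟩ := clean H hHsymm Fam (4 * q) (by omega) (Fam.card * a)
    (fun _ => a) S (by rw [Finset.sum_const, smul_eq_mul]) hSne (by
      rintro ⟨I, c⟩ hi
      rintro ⟨A, hAS, hAcard, hA⟩
      rw [Finset.mem_filter, Finset.mem_product, Finset.mem_powersetCard] at hi
      obtain ⟨⟨⟨hIX, hIcard⟩, _⟩, hImono⟩ := hi
      have hdisjAI : Disjoint A I := (Finset.disjoint_of_subset_left hIX
        (Finset.disjoint_of_subset_right hAS hdisj)).symm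
      apply hno A I hdisjAI hAcard hIcard c
      apply meetMono_of f A I c
      · intro x hx x' hx' x'' hx'' h12 h13 h23
        obtain ⟨w, hw⟩ := hSne
        rcases htri x (hIX hx) x' (hIX hx') x'' (hIX hx'') h12 h13 h23 w hw with h | h | h
        · rw [h]; exact hImono x hx x' hx' h12 w hw
        · rw [h]; exact hImono x hx x'' hx'' h13 w hw
        · rw [h]; exact hImono x' hx' x'' hx'' h23 w hw
      · intro x hx x' hx' hne y hy
        exact hImono x hx x' hx' hne y (hAS hy)
      · intro x hx y hy y' hy' hne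
        exact hA y hy y' hy' hne x hx)
  -- size of `T`
  have hTbig : 4 * (Fintype.card κ) ^ K * N ≤ T.card := by
    have h1 : S.card ≤ T.card * (4 * q) ^ (q * a) := by
      refine hTcard.trans (Nat.mul_le_mul_left _ ?_)
      exact Nat.pow_le_pow_right (by omega) (Nat.mul_le_mul_right _ hFam)
    have h2 := hS.trans h1
    rw [mul_comm T.card] at h2
    exact Nat.le_of_mul_le_mul_left h2 (by positivity)
  obtain ⟨y₀, hy₀⟩ := hTne
  -- remove `y₀` and the neighbours of `y₀`
  let Bad : Finset V := T.filter (fun z => z ≠ y₀ ∧ ∃ i ∈ Fam, H i y₀ z)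
  have hBad : 4 * Bad.card ≤ T.card := by
    have h1 : Bad ⊆ Fam.biUnion (fun i => T.filter (fun z => z ≠ y₀ ∧ H i y₀ z)) := by
      intro z hz
      rw [Finset.mem_filter] at hz
      obtain ⟨hzT, hzy, i, hi, hHi⟩ := hz
      rw [Finset.mem_biUnion]
      exact ⟨i, hi, Finset.mem_filter.mpr ⟨hzT, hzy, hHi⟩⟩
    have h2 : q * (4 * Bad.card) ≤ q * T.card := by
      calc q * (4 * Bad.card) = 4 * q * Bad.card := by ring
        _ ≤ 4 * q * (Fam.biUnion (fun i => T.filter (fun z => z ≠ y₀ ∧ H i y₀ z))).card :=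
            Nat.mul_le_mul_left _ (Finset.card_le_card h1)
        _ ≤ 4 * q * ∑ i ∈ Fam, (T.filter (fun z => z ≠ y₀ ∧ H i y₀ z)).card :=
            Nat.mul_le_mul_left _ Finset.card_biUnion_le
        _ = ∑ i ∈ Fam, 4 * q * (T.filter (fun z => z ≠ y₀ ∧ H i y₀ z)).card := by
            rw [Finset.mul_sum]
        _ ≤ ∑ _i ∈ Fam, T.card := by
            apply Finset.sum_le_sum
            intro i hi
            apply hT y₀ hy₀ i hi _ (Finset.filter_subset _ _)
            intro z hz
            exact (Finset.mem_filter.mp hz).2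
        _ = Fam.card * T.card := by rw [Finset.sum_const, smul_eq_mul]
        _ ≤ q * T.card := Nat.mul_le_mul_right _ hFam
    exact Nat.le_of_mul_le_mul_left h2 (by omega)
  let G : Finset V := (T.erase y₀) \ Bad
  have hG : (Fintype.card κ) ^ K * N ≤ G.card := by
    have h1 : (T.erase y₀).card - Bad.card ≤ G.card := Finset.le_card_sdiff _ _
    rw [Finset.card_erase_of_mem hy₀] at h1
    have h2 : 1 ≤ (Fintype.card κ) ^ K * N :=
      Nat.one_le_iff_ne_zero.mpr (Nat.mul_ne_zero (pow_ne_zero _ (by omega)) (by omega))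
    have h3 : 4 * ((Fintype.card κ) ^ K * N) ≤ T.card := by
      rw [← mul_assoc]; exact hTbig
    omega
  -- pigeonhole on the types over `X`
  have hty : ∃ τ : {x // x ∈ X} → κ, N ≤ (G.filter (fun y => (fun x : {x // x ∈ X} =>
      f {x.1, y₀, y}) = τ)).card := by
    have h1 : ∀ y ∈ G, (fun x : {x // x ∈ X} => f {x.1, y₀, y}) ∈
        (Finset.univ : Finset ({x // x ∈ X} → κ)) := fun y _ => Finset.mem_univ _
    have h2 : (Finset.univ : Finset ({x // x ∈ X} → κ)).card * N ≤ G.card := by
      rw [Finset.card_univ, Fintype.card_fun, Fintype.card_coe]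
      refine le_trans ?_ hG
      exact Nat.mul_le_mul_right _ (Nat.pow_le_pow_right hκ hXK.le)
    obtain ⟨τ, _, hτ⟩ := Finset.exists_le_card_fiber_of_mul_le_card_of_maps_to h1
      Finset.univ_nonempty h2
    exact ⟨τ, hτ⟩
  obtain ⟨τ, hτ⟩ := hty
  set S' : Finset V := G.filter (fun y => (fun x : {x // x ∈ X} => f {x.1, y₀, y}) = τ) with hS'
  have hS'G : S' ⊆ G := Finset.filter_subset _ _
  have hGT : G ⊆ T := (Finset.sdiff_subset).trans (Finset.erase_subset _ _)
  have hS'S : S' ⊆ S := hS'G.trans (hGT.trans hTS)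
  have hy₀S : y₀ ∈ S := hTS hy₀
  have hy₀X : y₀ ∉ X := fun h => (Finset.disjoint_left.mp hdisj h) hy₀S
  have hS'ne : S'.Nonempty := Finset.card_pos.mp (lt_of_lt_of_le (by omega) hτ)
  have hτeq : ∀ y ∈ S', ∀ x (hx : x ∈ X), f {x, y₀, y} = τ ⟨x, hx⟩ := by
    intro y hy x hx
    have := (Finset.mem_filter.mp hy).2
    exact congrFun this ⟨x, hx⟩
  refine ⟨insert y₀ X, S', ?_, ⟨?_, ?_, ?_, ?_⟩, hτ⟩
  · rw [Finset.card_insert_of_notMem hy₀X]
  · rw [Finset.disjoint_insert_left]
    refine ⟨?_, Finset.disjoint_of_subset_right hS'S hdisj⟩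
    intro h
    have := hS'G h
    rw [Finset.mem_sdiff, Finset.mem_erase] at this
    exact this.1.1 rfl
  · intro x hx x' hx' hne y hy y' hy'
    rw [Finset.mem_insert] at hx hx'
    rcases hx with rfl | hx
    · rcases hx' with rfl | hx'
      · exact absurd rfl hne
      · have h1 : ∀ w, ({x, x', w} : Finset V) = {x', x, w} := fun w => Finset.insert_comm _ _ _
        rw [h1, h1, hτeq y hy x' hx', hτeq y' hy' x' hx']
    · rcases hx' with rfl | hx'
      · rw [hτeq y hy x hx, hτeq y' hy' x hx]
      · exact hconst x hx x' hx' hne y (hS'S hy) y' (hS'S hy')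
  · intro x hx x' hx' x'' hx'' h12 h13 h23 y hy
    rw [Finset.mem_insert] at hx hx' hx''
    rcases hx with rfl | hx
    · -- `x = y₀`
      have hx'X : x' ∈ X := by
        rcases hx' with h | h
        · exact absurd h.symm h12
        · exact h
      have hx''X : x'' ∈ X := by
        rcases hx'' with h | h
        · exact absurd h.symm h13
        · exact h
      right; right
      have heq : ({x, x', x''} : Finset V) = {x', x'', x} := by
        ext w
        simp only [Finset.mem_insert, Finset.mem_singleton]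
        tauto
      rw [heq]
      exact hconst x' hx'X x'' hx''X h23 x hy₀S y (hS'S hy)
    · rcases hx' with rfl | hx'
      · have hx''X : x'' ∈ X := by
          rcases hx'' with h | h
          · exact absurd h.symm h23
          · exact h
        right; left
        rw [Finset.pair_comm x' x'']
        exact hconst x hx x'' hx''X h13 x' hy₀S y (hS'S hy)
      · rcases hx'' with rfl | hx''
        · left
          exact hconst x hx x' hx' h12 x'' hy₀S y (hS'S hy)
        · exact htri x hx x' hx' x'' hx'' h12 h13 h23 y (hS'S hy)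
  · intro c I hI hIcard hmono
    obtain ⟨w, hw⟩ := hS'ne
    by_cases hyI : y₀ ∈ I
    · -- `I \ {y₀}` is in the family, and `w` is a good neighbour of `y₀`
      have hIe : I.erase y₀ ⊆ X := by
        intro x hx
        rw [Finset.mem_erase] at hx
        have := hI hx.2
        rw [Finset.mem_insert] at this
        rcases this with h | h
        · exact absurd h hx.1
        · exact h
      have hIecard : (I.erase y₀).card = s := by
        rw [Finset.card_erase_of_mem hyI, hIcard]
        rfl
      have hmem : (I.erase y₀, c) ∈ Fam := by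
        rw [Finset.mem_filter, Finset.mem_product, Finset.mem_powersetCard]
        refine ⟨⟨⟨hIe, hIecard⟩, Finset.mem_univ _⟩, ?_⟩
        intro x hx x' hx' hne y hy
        rw [hconst x (hIe hx) x' (hIe hx') hne y hy w (hS'S hw)]
        exact hmono x (Finset.mem_of_mem_erase hx) x' (Finset.mem_of_mem_erase hx') hne w hw
      have hwG := hS'G hw
      rw [Finset.mem_sdiff, Finset.mem_erase] at hwG
      apply hwG.2
      rw [Finset.mem_filter]
      refine ⟨hwG.1.2, hwG.1.1, (I.erase y₀, c), hmem, ?_⟩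
      intro z hz
      exact hmono z (Finset.mem_of_mem_erase hz) y₀ hyI (Finset.ne_of_mem_erase hz) w hw
    · have hIX : I ⊆ X := by
        intro x hx
        have := hI hx
        rw [Finset.mem_insert] at this
        rcases this with h | h
        · exact absurd (h ▸ hx) hyI
        · exact h
      apply hclique c I hIX hIcard
      intro x hx x' hx' hne y hy
      rw [hconst x (hIX hx) x' (hIX hx') hne y hy w (hS'S hw)]
      exact hmono x hx x' hx' hne w hw

/-- Iterating the step. -/
theorem process (f : Finset V → κ) (s a K : ℕ)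
    (hno : ∀ A B : Finset V, Disjoint A B → A.card = a → B.card = s → ∀ c, ¬ MeetMono f A B c)
    (U : Finset V) (j : ℕ) : j ≤ K → ∀ N : ℕ, 1 ≤ N →
      ((4 * (K ^ s * Fintype.card κ)) ^ (K ^ s * Fintype.card κ * a) *
        (4 * (Fintype.card κ) ^ K)) ^ j * N ≤ U.card →
      ∃ X S : Finset V, X.card = j ∧ State f s X S ∧ N ≤ S.card := by
  induction j with
  | zero =>
    intro _ N _ hN
    refine ⟨∅, U, by simp, ⟨Finset.disjoint_empty_left _, by simp, by simp, ?_⟩, by simpa using hN⟩
    intro c I hI hIcard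
    have := Finset.subset_empty.mp hI
    subst this
    simp at hIcard
  | succ j ih =>
    intro hj N hN hU
    obtain ⟨X, S, hXc, hst, hS⟩ := ih (by omega)
      (((4 * (K ^ s * Fintype.card κ)) ^ (K ^ s * Fintype.card κ * a) *
        (4 * (Fintype.card κ) ^ K)) * N) (by
          have hκ : 1 ≤ Fintype.card κ := Fintype.card_pos
          have hK : 0 < K := by omega
          exact Nat.succ_le_of_lt (by positivity)) (by
          refine le_trans (le_of_eq ?_) hU
          ring)
    obtain ⟨X', S', h1, h2, h3⟩ := step f s a K hno X S (by omega) hst N hN (by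
      refine le_trans (le_of_eq ?_) hS
      ring)
    exact ⟨X', S', by omega, h2, h3⟩

/-- The conclusion with the (large) explicit constants of the argument. -/
theorem exists_cross (f : Finset V → κ) (s a K D : ℕ) (hD : 2 ≤ D) (hDκ : Fintype.card κ ≤ D)
    (hK : D ^ (Fintype.card κ * (s + 1)) ≤ K) (U : Finset V)
    (hU : ((4 * (K ^ s * Fintype.card κ)) ^ (K ^ s * Fintype.card κ * a) *
        (4 * (Fintype.card κ) ^ K)) ^ K ≤ U.card) :
    ∃ A B : Finset V, Disjoint A B ∧ A.card = a ∧ B.card = s ∧ ∃ c, MeetMono f A B c := by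
  by_contra hcon
  have hno : ∀ A B : Finset V, Disjoint A B → A.card = a → B.card = s →
      ∀ c, ¬ MeetMono f A B c := by
    intro A B h1 h2 h3 c h4
    exact hcon ⟨A, B, h1, h2, h3, c, h4⟩
  obtain ⟨X, S, hXc, ⟨hdisj, hconst, _, hclique⟩, hS⟩ := process f s a K hno U K le_rfl 1 le_rfl (by
    rw [mul_one]; exact hU)
  obtain ⟨w, hw⟩ := Finset.card_pos.mp (lt_of_lt_of_le Nat.zero_lt_one hS)
  obtain ⟨c, I, hIX, hIcard, hI⟩ := ramsey (fun x x' => f {x, x', w}) (by
      intro x y
      rw [Finset.insert_comm]) D hD hDκ (Fintype.card κ * (s + 1)) (fun _ => s + 1) X (by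
      rw [Finset.sum_const, Finset.card_univ, smul_eq_mul]) (by rw [hXc]; exact hK)
  apply hclique c I hIX hIcard
  intro x hx x' hx' hne y hy
  rw [hconst x (hIX hx) x' (hIX hx') hne y hy w hw]
  exact hI x hx x' hx' hne

end Main

/-- The numerical estimate: the constants of the argument are at most `2 ^ (a * K ^ (2 s + 4))`. -/
theorem numeric (r s a K : ℕ) (hr : 2 ≤ r) (ha : 1 ≤ a) (hs : 1 ≤ s) (hK : K = r ^ (r * (s + 1))) :
    ((4 * (K ^ s * r)) ^ (K ^ s * r * a) * (4 * r ^ K)) ^ K ≤ 2 ^ (a * K ^ (2 * s + 4)) := by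
  have hr4 : r ^ 4 ≤ K := by
    rw [hK]
    apply Nat.pow_le_pow_right (by omega)
    nlinarith
  have hr2 : r ^ 2 ≤ K := le_trans (Nat.pow_le_pow_right (by omega) (by norm_num)) hr4
  have h16 : 16 ≤ K := le_trans (by calc 16 = 2 ^ 4 := by norm_num
    _ ≤ r ^ 4 := Nat.pow_le_pow_left hr 4) hr4
  have hx : ∀ x : ℕ, x ≤ 2 ^ x := fun x => Nat.lt_two_pow_self.le
  have h1 : (4 * (K ^ s * r)) ^ (K ^ s * r * a) ≤ 2 ^ (a * K ^ (2 * s + 2)) := by
    calc (4 * (K ^ s * r)) ^ (K ^ s * r * a) ≤ (2 ^ (4 * (K ^ s * r))) ^ (K ^ s * r * a) :=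
          Nat.pow_le_pow_left (hx _) _
      _ = 2 ^ (4 * (K ^ s * r) * (K ^ s * r * a)) := (pow_mul 2 _ _).symm
      _ ≤ 2 ^ (a * K ^ (2 * s + 2)) := by
          apply Nat.pow_le_pow_right (by norm_num)
          calc 4 * (K ^ s * r) * (K ^ s * r * a) = a * ((4 * r ^ 2) * (K ^ s * K ^ s)) := by ring
            _ ≤ a * ((K * K) * (K ^ s * K ^ s)) := by
                apply Nat.mul_le_mul_left
                apply Nat.mul_le_mul_right
                exact Nat.mul_le_mul (by omega) hr2
            _ = a * K ^ (2 * s + 2) := by ring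
  have h2 : 4 * r ^ K ≤ 2 ^ (a * K ^ (2 * s + 2)) := by
    calc 4 * r ^ K ≤ 2 ^ 2 * (2 ^ r) ^ K :=
          Nat.mul_le_mul (by norm_num) (Nat.pow_le_pow_left (hx r) K)
      _ = 2 ^ (2 + r * K) := by rw [pow_add, pow_mul]
      _ ≤ 2 ^ (a * K ^ (2 * s + 2)) := by
          apply Nat.pow_le_pow_right (by norm_num)
          have h3 : r ≤ K := le_trans (by nlinarith) hr2
          have h4 : K ^ 3 ≤ K ^ (2 * s + 2) := Nat.pow_le_pow_right (by omega) (by omega)
          have h5 : 2 + r * K ≤ K ^ 3 := by
            have h7 : r * K ≤ K * K := Nat.mul_le_mul_right _ h3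
            have h8 : 16 * (K * K) ≤ K * (K * K) := Nat.mul_le_mul_right _ h16
            have h9 : K ^ 3 = K * (K * K) := by ring
            have h10 : 16 * K ≤ K * K := Nat.mul_le_mul_right _ h16
            omega
          have h6 : K ^ (2 * s + 2) ≤ a * K ^ (2 * s + 2) := Nat.le_mul_of_pos_left _ ha
          omega
  calc ((4 * (K ^ s * r)) ^ (K ^ s * r * a) * (4 * r ^ K)) ^ K
      ≤ (2 ^ (a * K ^ (2 * s + 2)) * 2 ^ (a * K ^ (2 * s + 2))) ^ K :=
        Nat.pow_le_pow_left (Nat.mul_le_mul h1 h2) K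
    _ = 2 ^ ((a * K ^ (2 * s + 2) + a * K ^ (2 * s + 2)) * K) := by rw [← pow_add, ← pow_mul]
    _ ≤ 2 ^ (a * K ^ (2 * s + 4)) := by
        apply Nat.pow_le_pow_right (by norm_num)
        calc (a * K ^ (2 * s + 2) + a * K ^ (2 * s + 2)) * K
            = a * K ^ (2 * s + 2) * (2 * K) := by ring
          _ ≤ a * K ^ (2 * s + 2) * (K * K) := Nat.mul_le_mul_left _
              (Nat.mul_le_mul_right _ (by omega))
          _ = a * K ^ (2 * s + 4) := by ring

/-- Let `r ≥ 2`, `s, a ≥ 1` and `n ≥ 2 ^ (a * r ^ (2 r (s + 1) (s + 2)))`. In every colouring of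
the triples of an `n`-element set with `r` colours there are disjoint sets `A` and `B` with
`|A| = a` and `|B| = s` such that all triples inside `A ∪ B` that meet `B` (in particular all
crossing triples of `(A, B)`) have the same colour. -/
theorem result : ∀ r s a n : ℕ, 2 ≤ r → 1 ≤ s → 1 ≤ a →
    2 ^ (a * r ^ (2 * r * (s + 1) * (s + 2))) ≤ n →
    ∀ f : Finset (Fin n) → Fin r, ∃ A B : Finset (Fin n), Disjoint A B ∧ A.card = a ∧ B.card = s ∧
      ∃ c : Fin r, ∀ T : Finset (Fin n), T.card = 3 → T ⊆ A ∪ B →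
        (T ∩ B).Nonempty → f T = c := by
  intro r s a n hr hs ha hn f
  have : Nonempty (Fin r) := ⟨⟨0, by omega⟩⟩
  set K := r ^ (r * (s + 1)) with hK
  have hexp : r ^ (2 * r * (s + 1) * (s + 2)) = K ^ (2 * s + 4) := by
    rw [hK, ← pow_mul]
    congr 1
    ring
  have hnum := numeric r s a K hr ha hs hK
  obtain ⟨A, B, h1, h2, h3, c, hc⟩ := exists_cross f s a K r hr (by rw [Fintype.card_fin])
    (by rw [Fintype.card_fin]) (Finset.univ : Finset (Fin n)) (by
      rw [Fintype.card_fin, Finset.card_univ, Fintype.card_fin]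
      refine hnum.trans ?_
      rw [← hexp]
      exact hn)
  exact ⟨A, B, h1, h2, h3, c, hc⟩

end Pool.Agent.Results.MP_739904_co.FixedSizeSide
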